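import Mathlib
import Pool.Agent.TH846.St.Ncard

/-!
Regular Steinhaus graphs of odd degree.

Proof idea. If all degrees are odd, a telescoping identity for the parities of the degrees shows
that the matrix becomes symmetric about its antidiagonal after adding a star. Equality of the
degrees then makes the first row (without its last entry) a palindrome, so that the submatrix on
the inner vertices is a triangle `F` invariant under all permutations of its three sides, and its
degrees are all equal and even. Reading these degrees modulo four gives linear conditions on `F`.
View `F` as a functional on binary forms over the field with two elements, invariant under the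
group of order six. The conditions say that a certain half-size triangle `R` attached to `F` by
an invariant-theoretic construction coincides with the triangle of the entries of `F` at odd, odd,
even positions. Hence `R` has two families of symmetries. On the other hand the values of `R` are
`ρ(Tr(z^i (1+z)^j))` for a functional `ρ` on polynomials in `w = z^3 + z`, the trace being taken
over the roots `z`. The symmetries become linear relations among traces; sorting them by their
lowest and highest powers of `w` shows that they span everything, so `ρ = 0` and `F = 0`.
-/

set_option autoImplicit false

namespace Pool.Agent.Results.MP_fd75d0_co.OddDegree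

/-- The entries `a i j` (used for `i < j`) of the Steinhaus matrix generated by the string `x`:
the first row is `a 0 j = x j`, and `a (i+1) (j+1) = a i j + a i (j+1)`. -/
def entry (x : ℕ → ZMod 2) : ℕ → ℕ → ZMod 2
  | 0, j => x j
  | (_ + 1), 0 => 0
  | (i + 1), (j + 1) => entry x i j + entry x i (j + 1)

/-- The Steinhaus graph on the vertices `0, …, n-1` generated by the string `x 1 … x (n-1)`:
distinct `u < w` are adjacent iff `a u w = 1`. -/
def steinhausGraph (n : ℕ) (x : ℕ → ZMod 2) : SimpleGraph (Fin n) :=
  SimpleGraph.fromRel (fun u w : Fin n => u < w ∧ entry x u.val w.val = 1)

/-- A regular Steinhaus graph of odd degree is the complete graph on two vertices, generated by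
the string `1`. -/
theorem result : ∀ (n : ℕ) (x : ℕ → ZMod 2) (d : ℕ), 2 ≤ n → Odd d →
    (∀ v : Fin n, ((steinhausGraph n x).neighborSet v).ncard = d) → n = 2 ∧ x 1 = 1 := by
  intro n x d hn hd hreg
  have h := Pool.Agent.TH846.St.odd_regular n hn (entry x)
    (fun i j _ => by rw [entry]) d hd
    (fun v hv => by
      rw [← hreg ⟨v, hv⟩]
      exact (Pool.Agent.TH846.St.ncard_dg n (entry x) ⟨v, hv⟩).symm)
  refine ⟨h.1, ?_⟩
  have h2 := h.2
  rw [entry] at h2
  exact h2

end Pool.Agent.Results.MP_fd75d0_co.OddDegree
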